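import Pool.Agent.Lib_MP_7d1493.Pt4

/-!
# The sheets of a minimal lamination over a boundary plane

`L` is a minimal lamination of the Euclidean space in the halfspace `0 ≤ z`, of locally finite area in the open slab `0 < z < h`. Either `L` is below the
height `h` a union of horizontal planes, or the heights of its sheets are not summable over any point of the plane `z = 0`: the integral of the height `z` over
`L ∩ ball p r` with respect to the area is infinite for every point `p` of the plane `z = 0` and every `r > 0`.

Idea of the proof: assume that the integral is finite for one ball. (1) In a chart at a point `p` of the plane the heights are harmonic on the slices, and a test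
function `max (1 / (s + e) + (4 / e ^ 2) z ^ 2 - M z - c0) 0 ^ 3`, `s` the square of the horizontal distance to a nearby point `x`, gives
`c ∫_{L ∩ ball p r} z ≤ C ∫_{L ∩ ball x ρ} z`: so the integral is finite near every point of the plane, hence on all compact subsets of `z < h`. (2) For a compactly
supported `C²` function `b` with support in `z < h`, `∫_L z Δ_L b = 0`. (3) The functions
`b = χ(z) max (H - κ log (1 + log (1 + x ^ 2 + y ^ 2)) - z + κ z ^ 2) 0 ^ 3` satisfy `Δ_L b ≥ c |∇_L z| ^ 2 - κ` on a given compact part of `0 ≤ z < h` and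
`Δ_L b ≥ - K κ [x ^ 2 + y ^ 2 ≤ 3]` elsewhere, for every minimal surface in `0 ≤ z`. As `κ → 0` the energy of the height vanishes.
-/

set_option autoImplicit false

open MeasureTheory Measure Set
open scoped ENNReal InnerProductSpace

namespace Pool.Agent.Results.MP_7d1493_gt.SummableHeights

open Pool.Agent.ML

/-- A minimal lamination in the halfspace `0 ≤ z` of locally finite area in the slab `0 < z < h` is below `h` a union of horizontal planes, or the integral of the
height over a neighbourhood of any point of the plane `z = 0` in the lamination is infinite. -/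
theorem result (L : Set E3) (N : E3 → E3) (hL : IsMinLam L N) (hpos : ∀ q ∈ L, 0 ≤ q 2) (h : ℝ) (hh : 0 < h)
    (hloc : ∀ K : Set E3, IsCompact K → K ⊆ {q | 0 < q 2 ∧ q 2 < h} → μHE[2] (L ∩ K) < ⊤) :
    (∃ C : Set ℝ, IsClosed C ∧ L ∩ {q | q 2 < h} = {q | q 2 ∈ C ∧ q 2 < h}) ∨
      ∀ p : E3, p 2 = 0 → ∀ r > 0, ∫⁻ q in L ∩ Metric.ball p r, ENNReal.ofReal (q 2) ∂μHE[2] = ⊤ := by
  by_cases hs : ∀ p : E3, p 2 = 0 → ∀ r > 0, ∫⁻ q in L ∩ Metric.ball p r, ENNReal.ofReal (q 2) ∂μHE[2] = ⊤
  · exact Or.inr hs
  · left
    push Not at hs
    obtain ⟨p, hp, r, hr, hne⟩ := hs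
    exact pt_planes hL hpos hh hloc hp hr (lt_top_iff_ne_top.mpr hne)

end Pool.Agent.Results.MP_7d1493_gt.SummableHeights
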